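import Pool.Agent.Helper96.MP.Defs

set_option autoImplicit false

namespace Pool.Agent.Helper96.MP

open Complex MeasureTheory Filter Topology
open scoped MatrixGroups ENNReal

theorem cov_mob_eq (g : SL(2, ℤ)) (z : ℂ) (hz : z ∈ UH) :
    mob g z = ((g • (⟨z, hz⟩ : UpperHalfPlane) : UpperHalfPlane) : ℂ) := by
  rw [UpperHalfPlane.coe_specialLinearGroup_apply]
  simp [mob, mo]

theorem cov_mob_mem (g : SL(2, ℤ)) {z : ℂ} (hz : z ∈ UH) : mob g z ∈ UH := by
  rw [cov_mob_eq g z hz]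
  exact (g • (⟨z, hz⟩ : UpperHalfPlane)).im_pos

theorem cov_mob_mul (g h : SL(2, ℤ)) {z : ℂ} (hz : z ∈ UH) :
    mob (g * h) z = mob g (mob h z) := by
  rw [cov_mob_eq (g * h) z hz, cov_mob_eq g _ (cov_mob_mem h hz), mul_smul]
  congr 2
  ext
  simp only [UpperHalfPlane.coe_mk]
  rw [← cov_mob_eq h z hz]

theorem cov_mob_one {z : ℂ} (hz : z ∈ UH) : mob 1 z = z := by
  rw [cov_mob_eq 1 z hz, one_smul]

theorem cov_jj_ne (g : SL(2, ℤ)) {z : ℂ} (hz : z ∈ UH) : jj g z ≠ 0 := by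
  intro h
  have hz' : 0 < z.im := hz
  unfold jj at h
  have h1 := congrArg Complex.im h
  simp at h1
  have hc : g 1 0 = 0 := by
    rcases h1 with h1 | h1
    · exact h1
    · exact absurd h1 hz'.ne'
  rw [hc] at h
  simp at h
  have hdet := g.2
  rw [Matrix.det_fin_two] at hdet
  have e1 : (g.1 1 0 : ℤ) = 0 := hc
  have e2 : (g.1 1 1 : ℤ) = 0 := h
  rw [e1, e2] at hdet
  simp at hdet

theorem cov_det (g : SL(2, ℤ)) : (g 0 0 : ℤ) * g 1 1 - g 0 1 * g 1 0 = 1 := by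
  have hdet := g.2
  rw [Matrix.det_fin_two] at hdet
  exact hdet

theorem cov_hasDeriv (g : SL(2, ℤ)) {z : ℂ} (hz : z ∈ UH) :
    HasDerivAt (mob g) ((jj g z ^ 2)⁻¹) z := by
  have hj := cov_jj_ne g hz
  have h1 : HasDerivAt (fun z : ℂ => ((g 0 0 : ℤ) : ℂ) * z + ((g 0 1 : ℤ) : ℂ))
      ((g 0 0 : ℤ) : ℂ) z := by
    simpa using ((hasDerivAt_id z).const_mul ((g 0 0 : ℤ) : ℂ)).add_const ((g 0 1 : ℤ) : ℂ)
  have h2 : HasDerivAt (fun z : ℂ => ((g 1 0 : ℤ) : ℂ) * z + ((g 1 1 : ℤ) : ℂ))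
      ((g 1 0 : ℤ) : ℂ) z := by
    simpa using ((hasDerivAt_id z).const_mul ((g 1 0 : ℤ) : ℂ)).add_const ((g 1 1 : ℤ) : ℂ)
  have h3 := h1.div h2 hj
  have h4 : (jj g z ^ 2)⁻¹ = (((g 0 0 : ℤ) : ℂ) * (((g 1 0 : ℤ) : ℂ) * z + ((g 1 1 : ℤ) : ℂ)) -
      (((g 0 0 : ℤ) : ℂ) * z + ((g 0 1 : ℤ) : ℂ)) * ((g 1 0 : ℤ) : ℂ)) /
      (((g 1 0 : ℤ) : ℂ) * z + ((g 1 1 : ℤ) : ℂ)) ^ 2 := by
    have h5 : (((g 0 0 : ℤ) : ℂ) * (((g 1 0 : ℤ) : ℂ) * z + ((g 1 1 : ℤ) : ℂ)) -
      (((g 0 0 : ℤ) : ℂ) * z + ((g 0 1 : ℤ) : ℂ)) * ((g 1 0 : ℤ) : ℂ)) = 1 := by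
      have := congrArg (fun t : ℤ => (t : ℂ)) (cov_det g)
      simp only [Int.cast_sub, Int.cast_mul, Int.cast_one] at this
      linear_combination this
    rw [h5, one_div]
    rfl
  rw [h4]
  exact h3

/-- the real derivative of `mob g` -/
noncomputable def cov_D (g : SL(2, ℤ)) (z : ℂ) : ℂ →L[ℝ] ℂ :=
  (ContinuousLinearMap.toSpanSingleton ℂ ((jj g z ^ 2)⁻¹)).restrictScalars ℝ

theorem cov_hasFDeriv (g : SL(2, ℤ)) {z : ℂ} (hz : z ∈ UH) :
    HasFDerivAt (mob g) (cov_D g z) z := by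
  have := (cov_hasDeriv g hz).hasFDerivAt.restrictScalars ℝ
  exact this

theorem cov_det_D (g : SL(2, ℤ)) (z : ℂ) : |(cov_D g z).det| = (‖jj g z‖ ^ 4)⁻¹ := by
  have h1 : (cov_D g z).det = Complex.normSq ((jj g z ^ 2)⁻¹) := by
    rw [← Algebra.norm_complex_apply]
    have h2 : ((cov_D g z : ℂ →L[ℝ] ℂ) : ℂ →ₗ[ℝ] ℂ) =
        (LinearMap.mulLeft ℂ ((jj g z ^ 2)⁻¹)).restrictScalars ℝ := by
      ext <;> simp [cov_D, mul_comm]
    rw [ContinuousLinearMap.det, h2, LinearMap.det_restrictScalars, LinearMap.det_mulLeft]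
  rw [h1, abs_of_nonneg (Complex.normSq_nonneg _), Complex.normSq_eq_norm_sq, norm_inv, norm_pow,
    inv_pow, ← pow_mul]

theorem cov_inj (g : SL(2, ℤ)) : Set.InjOn (mob g) UH := by
  intro z hz w hw h
  have h1 := congrArg (mob g⁻¹) h
  rwa [← cov_mob_mul _ _ hz, ← cov_mob_mul _ _ hw, inv_mul_cancel, cov_mob_one hz,
    cov_mob_one hw] at h1

/-- change of variables -/
theorem cov_change (g : SL(2, ℤ)) {K : Set ℂ} (hK : MeasurableSet K) (hKU : K ⊆ UH)
    (f : ℂ → ℝ≥0∞) :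
    ∫⁻ w in mob g '' K, f w = ∫⁻ z in K, ENNReal.ofReal ((‖jj g z‖ ^ 4)⁻¹) * f (mob g z) := by
  have key := lintegral_image_eq_lintegral_abs_det_fderiv_mul (volume : Measure ℂ) hK
    (fun z hz => (cov_hasFDeriv g (hKU hz)).hasFDerivWithinAt) ((cov_inj g).mono hKU) f
  rw [key]
  refine setLIntegral_congr_fun hK fun z _ => ?_
  simp only [cov_det_D]

theorem cov_isOpen : IsOpen UH := isOpen_lt continuous_const Complex.continuous_im

theorem cov_countable : Countable (SL(2, ℤ)) := by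
  haveI : Countable (Matrix (Fin 2) (Fin 2) ℤ) := inferInstanceAs (Countable (Fin 2 → Fin 2 → ℤ))
  exact Subtype.val_injective.countable

theorem cov_mob_meas (g : SL(2, ℤ)) : Measurable (mob g) := by
  unfold mob mo
  fun_prop

theorem cov_image (g : SL(2, ℤ)) {K : Set ℂ} (hKU : K ⊆ UH) :
    mob g '' K = UH ∩ mob g⁻¹ ⁻¹' K := by
  ext w
  constructor
  · rintro ⟨z, hz, rfl⟩
    refine ⟨cov_mob_mem g (hKU hz), ?_⟩
    show mob g⁻¹ (mob g z) ∈ K
    rw [← cov_mob_mul _ _ (hKU hz), inv_mul_cancel, cov_mob_one (hKU hz)]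
    exact hz
  · rintro ⟨hw, hw2⟩
    refine ⟨mob g⁻¹ w, hw2, ?_⟩
    rw [← cov_mob_mul _ _ hw, mul_inv_cancel, cov_mob_one hw]

theorem st_COV : ST_COV := by
  intro N W hN hW K m hK hKU hm Φ hΦc hΦ0 hΦe hint
  classical
  haveI : Countable (SL(2, ℤ)) := cov_countable
  have hUm : MeasurableSet UH := cov_isOpen.measurableSet
  -- measurable version of Φ
  have hΦm : Measurable (UH.indicator Φ) := by
    have := ContinuousOn.measurable_piecewise (f := Φ) (g := (0 : ℂ → ℝ)) (s := UH) hΦc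
      continuousOn_const hUm
    rwa [Set.piecewise_eq_indicator] at this
  set F : ℂ → ℝ≥0∞ := fun z => ENNReal.ofReal (UH.indicator Φ z) with hF
  have hFm : Measurable F := hΦm.ennreal_ofReal
  have hFU : ∀ z ∈ UH, F z = ENNReal.ofReal (Φ z) := fun z hz => by
    simp only [hF, Set.indicator_of_mem hz]
  set f : ℂ → ℝ≥0∞ := fun z => ENNReal.ofReal (W z) * F z with hf
  have hfm : Measurable f := hW.meas.ennreal_ofReal.mul hFm
  have hsum : ∀ z ∈ UH, ∑' g : CongruenceSubgroup.Gamma0 N, ENNReal.ofReal (W (mob g.1 z)) = 1 := by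
    intro z hz
    rw [← ENNReal.ofReal_tsum_of_nonneg (fun g => hW.nonneg _) (hW.sum z hz).summable,
      (hW.sum z hz).tsum_eq, ENNReal.ofReal_one]
  have step1 : ∫⁻ z in K, F z
      = ∑' g : CongruenceSubgroup.Gamma0 N, ∫⁻ w in mob g.1 '' K, f w := by
    have h1 : ∫⁻ z in K, F z
        = ∫⁻ z in K, ∑' g : CongruenceSubgroup.Gamma0 N, ENNReal.ofReal (W (mob g.1 z)) * F z := by
      refine setLIntegral_congr_fun hK fun z hz => ?_
      rw [ENNReal.tsum_mul_right, hsum z (hKU hz), one_mul]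
    have hm' : ∀ g : CongruenceSubgroup.Gamma0 N,
        Measurable (fun z => ENNReal.ofReal (W (mob g.1 z)) * F z) := fun g =>
      Measurable.mul (Measurable.ennreal_ofReal (hW.meas.comp (cov_mob_meas g.1))) hFm
    rw [h1, lintegral_tsum (fun g => (hm' g).aemeasurable)]
    refine tsum_congr fun g => ?_
    rw [cov_change g.1 hK hKU]
    refine setLIntegral_congr_fun hK fun z hz => ?_
    simp only [hf]
    rw [hFU _ (hKU hz), hFU _ (cov_mob_mem g.1 (hKU hz)), hΦe g.1 g.2 z (hKU hz)]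
    have hj : 0 < ‖jj g.1 z‖ ^ 4 := by
      have := norm_pos_iff.2 (cov_jj_ne g.1 (hKU hz))
      positivity
    rw [← ENNReal.ofReal_mul (hW.nonneg _), ← ENNReal.ofReal_mul (hW.nonneg _),
      ← ENNReal.ofReal_mul (by positivity)]
    congr 1
    have hj1 : ‖jj g.1 z‖ ^ 4 ≠ 0 := hj.ne'
    calc W (mob g.1 z) * Φ z = (‖jj g.1 z‖ ^ 4)⁻¹ * ‖jj g.1 z‖ ^ 4 * (W (mob g.1 z) * Φ z) := by
          rw [inv_mul_cancel₀ hj1, one_mul]
      _ = _ := by ring
  have hmeasI : ∀ g : CongruenceSubgroup.Gamma0 N, MeasurableSet (mob g.1 '' K) := by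
    intro g
    rw [cov_image g.1 hKU]
    exact hUm.inter (cov_mob_meas _ hK)
  have step2 : ∑' g : CongruenceSubgroup.Gamma0 N, ∫⁻ w in mob g.1 '' K, f w
      ≤ m * ∫⁻ w in UH, f w := by
    have h1 : ∀ g : CongruenceSubgroup.Gamma0 N, ∫⁻ w in mob g.1 '' K, f w
        = ∫⁻ w in UH, (mob g.1 '' K).indicator f w := by
      intro g
      rw [lintegral_indicator (hmeasI g), Measure.restrict_restrict (hmeasI g)]
      rw [Set.inter_eq_left.2]
      rw [cov_image g.1 hKU]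
      exact Set.inter_subset_left
    simp only [h1]
    rw [← lintegral_tsum (fun g => (hfm.indicator (hmeasI g)).aemeasurable),
      ← lintegral_const_mul' _ _ (ENNReal.natCast_ne_top m)]
    refine setLIntegral_mono (hfm.const_mul _) fun w hw => ?_
    -- counting
    by_cases hex : ∃ g0 : CongruenceSubgroup.Gamma0 N, mob g0.1⁻¹ w ∈ K
    · obtain ⟨g0, hg0⟩ := hex
      obtain ⟨hfin, hcard⟩ := hm _ hg0
      set A : Set (CongruenceSubgroup.Gamma0 N) := {g | w ∈ mob g.1 '' K} with hA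
      set ψ : CongruenceSubgroup.Gamma0 N → SL(2, ℤ) := fun g => g.1⁻¹ * g0.1 with hψ
      have hψi : Function.Injective ψ := by
        intro g g' h
        simp only [hψ, mul_left_inj, inv_inj] at h
        exact Subtype.ext h
      have hmaps : ψ '' A ⊆ {g : SL(2, ℤ) | mob g (mob g0.1⁻¹ w) ∈ K} := by
        rintro _ ⟨g, hg, rfl⟩
        have hg' : w ∈ mob g.1 '' K := hg
        rw [cov_image g.1 hKU] at hg'
        show mob (g.1⁻¹ * g0.1) (mob g0.1⁻¹ w) ∈ K
        rw [← cov_mob_mul _ _ hw, mul_assoc, mul_inv_cancel, mul_one]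
        exact hg'.2
      have hAfin : A.Finite := Set.Finite.of_finite_image (hfin.subset hmaps) hψi.injOn
      have hAcard : A.ncard ≤ m := by
        rw [← Set.ncard_image_of_injective A hψi]
        exact (Set.ncard_le_ncard hmaps hfin).trans hcard
      have hts : ∑' g : CongruenceSubgroup.Gamma0 N, (mob g.1 '' K).indicator f w
          = ∑ g ∈ hAfin.toFinset, f w := by
        rw [tsum_eq_sum (s := hAfin.toFinset)]
        · refine Finset.sum_congr rfl fun g hg => ?_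
          rw [Set.indicator_of_mem]
          simpa [hA] using hg
        · intro g hg
          rw [Set.indicator_of_notMem]
          simpa [hA] using hg
      rw [hts, Finset.sum_const, nsmul_eq_mul]
      gcongr
      rw [Set.ncard_eq_toFinset_card A hAfin] at hAcard
      exact_mod_cast hAcard
    · push Not at hex
      have hts : ∑' g : CongruenceSubgroup.Gamma0 N, (mob g.1 '' K).indicator f w = 0 := by
        rw [ENNReal.tsum_eq_zero]
        intro g
        rw [Set.indicator_of_notMem]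
        rw [cov_image g.1 hKU]
        rintro ⟨-, h⟩
        exact hex g h
      rw [hts]
      exact bot_le
  have hfint : ∫⁻ w in UH, f w = ∫⁻ w in UH, ENNReal.ofReal (W w * Φ w) := by
    refine setLIntegral_congr_fun hUm fun w hw => ?_
    simp only [hf]
    rw [hFU w hw, ← ENNReal.ofReal_mul (hW.nonneg _)]
  have hfin : ∫⁻ w in UH, ENNReal.ofReal (W w * Φ w) < ∞ := by
    refine lt_of_le_of_lt (lintegral_mono fun w => ?_) hint.2
    exact Real.ofReal_le_enorm _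
  have hbound : ∫⁻ z in K, F z ≤ m * ∫⁻ w in UH, ENNReal.ofReal (W w * Φ w) := by
    rw [step1, ← hfint]; exact step2
  have hΦK : ∫⁻ z in K, ENNReal.ofReal (Φ z) = ∫⁻ z in K, F z :=
    setLIntegral_congr_fun hK fun z hz => (hFU z (hKU hz)).symm
  have haesm : AEStronglyMeasurable Φ (volume.restrict K) := by
    refine (hΦm.aestronglyMeasurable).congr ?_
    refine (ae_restrict_iff' hK).2 (Eventually.of_forall fun z hz => ?_)
    exact Set.indicator_of_mem (hKU hz) _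
  have hnonneg : 0 ≤ᵐ[volume.restrict K] Φ :=
    (ae_restrict_iff' hK).2 (Eventually.of_forall fun z hz => hΦ0 z (hKU hz))
  have hlt : ∫⁻ z in K, ENNReal.ofReal (Φ z) < ∞ := by
    rw [hΦK]
    exact lt_of_le_of_lt hbound (ENNReal.mul_lt_top (ENNReal.natCast_lt_top m) hfin)
  refine ⟨⟨haesm, ?_⟩, ?_⟩
  · rw [hasFiniteIntegral_iff_ofReal hnonneg]
    exact hlt
  · rw [integral_eq_lintegral_of_nonneg_ae hnonneg haesm,
      integral_eq_lintegral_of_nonneg_ae ((ae_restrict_iff' hUm).2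
        (Eventually.of_forall fun z hz => mul_nonneg (hW.nonneg _) (hΦ0 z hz))) hint.1, hΦK]
    have h1 := ENNReal.toReal_mono (ENNReal.mul_lt_top (ENNReal.natCast_lt_top m) hfin).ne hbound
    rw [ENNReal.toReal_mul, ENNReal.toReal_natCast] at h1
    exact h1

end Pool.Agent.Helper96.MP
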