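import Pool.Agent.Helper96.MP.Defs

set_option autoImplicit false

namespace Pool.Agent.Helper96.MP

open Complex MeasureTheory Filter Topology
open scoped MatrixGroups

theorem fd_zero (M : ℕ) : Cusp M (0 : ℕ → ℂ) := by
  have h0 : ∀ τ : ℂ, qs 0 τ = 0 := by
    intro τ
    simp [qs]
  refine ⟨fun τ _ => ?_, fun τ _ p q r s _ _ => ?_, ⟨0, fun τ _ => ?_⟩⟩
  · simpa using summable_zero
  · rw [h0, h0, mul_zero]
  · rw [h0, norm_zero, mul_zero]

theorem fd_add (M : ℕ) (b b' : ℕ → ℂ) (h : Cusp M b) (h' : Cusp M b') : Cusp M (b + b') := by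
  have hadd : ∀ τ : ℂ, 0 < τ.im → qs (b + b') τ = qs b τ + qs b' τ := by
    intro τ hτ
    unfold qs
    rw [← (h.sum τ hτ).tsum_add (h'.sum τ hτ)]
    refine tsum_congr fun k => ?_
    simp only [Pi.add_apply]
    ring
  refine ⟨fun τ hτ => ?_, fun τ hτ p q r s h1 h2 => ?_, ?_⟩
  · refine ((h.sum τ hτ).add (h'.sum τ hτ)).congr fun k => ?_
    simp only [Pi.add_apply]
    ring
  · have himpos : 0 < (((p : ℂ) * τ + (q : ℂ)) / ((r : ℂ) * τ + (s : ℂ))).im := by
      have hz : ((r : ℂ) * τ + (s : ℂ)) ≠ 0 := by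
        intro h0
        have e := congrArg Complex.im h0
        simp at e
        rcases e with e | e
        · subst e
          simp at h0
          subst h0
          simp at h1
        · exact hτ.ne' e
      have e1 : (((p : ℂ) * τ + (q : ℂ)) / ((r : ℂ) * τ + (s : ℂ))).im =
          τ.im / Complex.normSq ((r : ℂ) * τ + (s : ℂ)) := by
        rw [Complex.div_im, ← sub_div]
        have h1' : (p : ℝ) * s - q * r = 1 := by exact_mod_cast h1
        congr 1
        simp only [Complex.add_im, Complex.mul_im, Complex.intCast_re, Complex.intCast_im,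
          Complex.add_re, Complex.mul_re, zero_mul, add_zero, sub_zero]
        linear_combination τ.im * h1'
      rw [e1]
      exact div_pos hτ (Complex.normSq_pos.2 hz)
    rw [hadd _ himpos, hadd _ hτ, h.inv τ hτ p q r s h1 h2, h'.inv τ hτ p q r s h1 h2]
    ring
  · obtain ⟨B, hB⟩ := h.bdd
    obtain ⟨B', hB'⟩ := h'.bdd
    refine ⟨B + B', fun τ hτ => ?_⟩
    rw [hadd _ hτ]
    calc τ.im * ‖qs b τ + qs b' τ‖ ≤ τ.im * (‖qs b τ‖ + ‖qs b' τ‖) :=
          mul_le_mul_of_nonneg_left (norm_add_le _ _) hτ.le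
      _ = τ.im * ‖qs b τ‖ + τ.im * ‖qs b' τ‖ := by ring
      _ ≤ B + B' := add_le_add (hB τ hτ) (hB' τ hτ)

theorem fd_smul (M : ℕ) (c : ℂ) (b : ℕ → ℂ) (h : Cusp M b) : Cusp M (c • b) := by
  have hmul : ∀ τ : ℂ, qs (c • b) τ = c * qs b τ := by
    intro τ
    unfold qs
    rw [← tsum_mul_left]
    refine tsum_congr fun k => ?_
    simp only [Pi.smul_apply, smul_eq_mul]
    ring
  refine ⟨fun τ hτ => ?_, fun τ hτ p q r s h1 h2 => ?_, ?_⟩
  · refine ((h.sum τ hτ).mul_left c).congr fun k => ?_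
    simp only [Pi.smul_apply, smul_eq_mul]
    ring
  · rw [hmul, hmul, h.inv τ hτ p q r s h1 h2]
    ring
  · obtain ⟨B, hB⟩ := h.bdd
    refine ⟨‖c‖ * B, fun τ hτ => ?_⟩
    rw [hmul, norm_mul]
    calc τ.im * (‖c‖ * ‖qs b τ‖) = ‖c‖ * (τ.im * ‖qs b τ‖) := by ring
      _ ≤ ‖c‖ * B := mul_le_mul_of_nonneg_left (hB τ hτ) (norm_nonneg _)

theorem st_FD (hst : ST_STURM) : ST_FD := by
  intro M hM
  let S : Submodule ℂ (ℕ → ℂ) :=
    { carrier := {b | Cusp M b}
      add_mem' := fun {a b} ha hb => fd_add M a b ha hb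
      zero_mem' := fd_zero M
      smul_mem' := fun c b hb => fd_smul M c b hb }
  refine ⟨S, fun b => Iff.rfl, ?_⟩
  let φ : S →ₗ[ℂ] (Fin (M ^ 2 + 1) → ℂ) :=
    { toFun := fun b i => b.1 i
      map_add' := fun _ _ => rfl
      map_smul' := fun _ _ => rfl }
  refine FiniteDimensional.of_injective φ ?_
  rw [← LinearMap.ker_eq_bot, LinearMap.ker_eq_bot']
  intro b hb
  have h1 : ∀ n ≤ M ^ 2, b.1 n = 0 := by
    intro n hn
    exact congrFun hb ⟨n, by omega⟩
  exact Subtype.ext (funext fun n => hst M b.1 hM b.2 h1 n)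

end Pool.Agent.Helper96.MP
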