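import Pool.Agent.Helper22.MP.COV

set_option autoImplicit false

namespace Pool.Agent.Helper96.MP

open Complex MeasureTheory Filter Topology
open scoped MatrixGroups ENNReal

theorem wt_fin0 (z : UpperHalfPlane) :
    {g : SL(2, ℤ) | g • z ∈ ModularGroup.fd}.Finite := by
  have h1 : {p : Fin 2 → ℤ | Complex.normSq ((p 0 : ℂ) * z + p 1) ≤ 2 * z.im}.Finite := by
    have := (ModularGroup.tendsto_normSq_coprime_pair z).eventually_gt_atTop (2 * z.im)
    rw [Filter.eventually_cofinite] at this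
    refine this.subset fun p hp => ?_
    simpa using hp
  have h2 : ∀ p : Fin 2 → ℤ,
      {g : SL(2, ℤ) | g 1 = p ∧ |(g • z).re| ≤ 1 / 2}.Finite := by
    intro p
    by_cases hp : IsCoprime (p 0) (p 1)
    · have := (ModularGroup.tendsto_abs_re_smul z hp).eventually_gt_atTop (1 / 2)
      rw [Filter.eventually_cofinite] at this
      refine (this.image Subtype.val).subset fun g hg => ?_
      exact ⟨⟨g, hg.1⟩, by simpa using hg.2, rfl⟩
    · convert Set.finite_empty using 1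
      rw [Set.eq_empty_iff_forall_notMem]
      rintro g ⟨rfl, -⟩
      exact hp (ModularGroup.bottom_row_coprime g)
  refine (h1.biUnion fun p _ => h2 p).subset fun g hg => ?_
  have hg' : g • z ∈ ModularGroup.fd := hg
  rw [Set.mem_iUnion₂]
  refine ⟨g 1, ?_, rfl, hg'.2⟩
  have e1 := ModularGroup.three_le_four_mul_im_sq_of_mem_fd hg'
  have e2 : (1 : ℝ) / 2 ≤ (g • z).im := by
    have := (g • z).im_pos
    nlinarith
  rw [ModularGroup.im_smul_eq_div_normSq, ModularGroup.denom_apply] at e2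
  have e3 : Complex.normSq ((g 1 0 : ℂ) * z + g 1 1) ≤ 2 * z.im := by
    rcases (Complex.normSq_nonneg ((g 1 0 : ℂ) * z + g 1 1)).lt_or_eq with h | h
    · rw [le_div_iff₀ h] at e2
      linarith
    · rw [← h]
      have := z.im_pos
      linarith
  exact e3

/-- the closed fundamental domain -/
def wt_F0 : Set ℂ := {w | w ∈ UH ∧ |w.re| ≤ 1 / 2 ∧ 1 ≤ ‖w‖}

theorem wt_F0_meas : MeasurableSet wt_F0 := by
  have h1 : MeasurableSet {w : ℂ | |w.re| ≤ 1 / 2} :=
    (isClosed_le (Complex.continuous_re.abs) continuous_const).measurableSet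
  have h2 : MeasurableSet {w : ℂ | 1 ≤ ‖w‖} :=
    (isClosed_le continuous_const continuous_norm).measurableSet
  exact cov_isOpen.measurableSet.inter (h1.inter h2)

theorem wt_mem_F0 (g : SL(2, ℤ)) (z : ℂ) (hz : z ∈ UH) :
    mob g z ∈ wt_F0 ↔ g • (⟨z, hz⟩ : UpperHalfPlane) ∈ ModularGroup.fd := by
  have e := cov_mob_eq g z hz
  constructor
  · rintro ⟨-, h2, h3⟩
    rw [e] at h2 h3
    refine ⟨?_, h2⟩
    rw [Complex.normSq_eq_norm_sq]
    nlinarith
  · rintro ⟨h1, h2⟩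
    refine ⟨cov_mob_mem g hz, ?_, ?_⟩
    · rw [e]; exact h2
    · rw [e]
      rw [Complex.normSq_eq_norm_sq] at h1
      have := norm_nonneg (((g • (⟨z, hz⟩ : UpperHalfPlane) : UpperHalfPlane) : ℂ))
      nlinarith

theorem wt_fin (z : ℂ) (hz : z ∈ UH) : {g : SL(2, ℤ) | mob g z ∈ wt_F0}.Finite := by
  refine (wt_fin0 ⟨z, hz⟩).subset fun g hg => ?_
  exact (wt_mem_F0 g z hz).1 hg

theorem wt_ex (z : ℂ) (hz : z ∈ UH) : ∃ g : SL(2, ℤ), mob g z ∈ wt_F0 := by
  obtain ⟨g, hg⟩ := ModularGroup.exists_smul_mem_fd ⟨z, hz⟩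
  exact ⟨g, (wt_mem_F0 g z hz).2 hg⟩

/-- coset representatives -/
theorem wt_reps (N : ℕ) (hN : 1 ≤ N) : ∃ G : Finset SL(2, ℤ), ∀ h : SL(2, ℤ),
    ∃ γ ∈ CongruenceSubgroup.Gamma0 N, ∃ g ∈ G, h = γ * g := by
  classical
  haveI : NeZero N := ⟨by omega⟩
  haveI : Fintype (SL(2, ℤ) ⧸ CongruenceSubgroup.Gamma0 N) :=
    Subgroup.fintypeQuotientOfFiniteIndex
  refine ⟨Finset.univ.image (fun q : SL(2, ℤ) ⧸ CongruenceSubgroup.Gamma0 N => (Quotient.out q)⁻¹),
    fun h => ?_⟩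
  set q : SL(2, ℤ) ⧸ CongruenceSubgroup.Gamma0 N := QuotientGroup.mk h⁻¹ with hq
  have h1 : (QuotientGroup.mk (Quotient.out q) : SL(2, ℤ) ⧸ CongruenceSubgroup.Gamma0 N)
      = QuotientGroup.mk h⁻¹ := by
    rw [← hq]
    exact Quotient.out_eq q
  rw [QuotientGroup.eq] at h1
  refine ⟨h * Quotient.out q, ?_, (Quotient.out q)⁻¹, ?_, by group⟩
  · have := (CongruenceSubgroup.Gamma0 N).inv_mem h1
    simpa using this
  · exact Finset.mem_image_of_mem _ (Finset.mem_univ _)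

theorem st_WT : ST_WT := by
  intro N hN
  classical
  haveI : Countable (SL(2, ℤ)) := cov_countable
  obtain ⟨G, hG⟩ := wt_reps N hN
  set F : Set ℂ := ⋃ g ∈ G, mob g '' wt_F0 with hF
  have hF0U : wt_F0 ⊆ UH := fun w hw => hw.1
  have hFU : F ⊆ UH := by
    intro z hz
    rw [hF, Set.mem_iUnion₂] at hz
    obtain ⟨g, -, w, hw, rfl⟩ := hz
    exact cov_mob_mem g hw.1
  have hFm : MeasurableSet F := by
    refine Finset.measurableSet_biUnion G fun g _ => ?_
    rw [cov_image g hF0U]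
    exact cov_isOpen.measurableSet.inter (cov_mob_meas _ wt_F0_meas)
  have hmemF : ∀ z ∈ UH, z ∈ F ↔ ∃ g ∈ G, mob g⁻¹ z ∈ wt_F0 := by
    intro z hz
    rw [hF, Set.mem_iUnion₂]
    constructor
    · rintro ⟨g, hg, h⟩
      rw [cov_image g hF0U] at h
      exact ⟨g, hg, h.2⟩
    · rintro ⟨g, hg, h⟩
      refine ⟨g, hg, ?_⟩
      rw [cov_image g hF0U]
      exact ⟨hz, h⟩
  have hfin : ∀ z ∈ UH, {γ : CongruenceSubgroup.Gamma0 N | mob γ.1 z ∈ F}.Finite := by
    intro z hz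
    have h1 : {γ : SL(2, ℤ) | mob γ z ∈ F} ⊆
        ⋃ g ∈ G, (fun h => g * h) '' {h : SL(2, ℤ) | mob h z ∈ wt_F0} := by
      intro γ hγ
      obtain ⟨g, hg, h⟩ := (hmemF _ (cov_mob_mem γ hz)).1 hγ
      rw [← cov_mob_mul _ _ hz] at h
      rw [Set.mem_iUnion₂]
      exact ⟨g, hg, g⁻¹ * γ, h, by simp⟩
    have h2 : {γ : SL(2, ℤ) | mob γ z ∈ F}.Finite :=
      (Set.Finite.biUnion G.finite_toSet fun g _ => (wt_fin z hz).image _).subset h1
    have h3 := Set.Finite.preimage (f := (Subtype.val : CongruenceSubgroup.Gamma0 N → SL(2, ℤ)))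
      Subtype.val_injective.injOn h2
    exact h3
  have hne : ∀ z ∈ UH, {γ : CongruenceSubgroup.Gamma0 N | mob γ.1 z ∈ F}.Nonempty := by
    intro z hz
    obtain ⟨h, hh⟩ := wt_ex z hz
    obtain ⟨γ, hγ, g, hg, e⟩ := hG h⁻¹
    refine ⟨⟨γ⁻¹, (CongruenceSubgroup.Gamma0 N).inv_mem hγ⟩, ?_⟩
    show mob γ⁻¹ z ∈ F
    refine (hmemF _ (cov_mob_mem _ hz)).2 ⟨g, hg, ?_⟩
    rw [← cov_mob_mul _ _ hz]
    have : g⁻¹ * γ⁻¹ = h := by
      rw [← mul_inv_rev, ← e, inv_inv]
    rw [this]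
    exact hh
  -- counting function
  set n : ℂ → ℝ≥0∞ := fun z => ∑' γ : CongruenceSubgroup.Gamma0 N,
    F.indicator (fun _ => (1 : ℝ≥0∞)) (mob γ.1 z) with hn
  have hnm : Measurable n := by
    refine Measurable.ennreal_tsum fun γ => ?_
    exact (measurable_const.indicator hFm).comp (cov_mob_meas γ.1)
  have hncard : ∀ z (hz : z ∈ UH), n z = ((hfin z hz).toFinset.card : ℝ≥0∞) := by
    intro z hz
    simp only [hn]
    rw [tsum_eq_sum (s := (hfin z hz).toFinset)]
    · rw [Finset.sum_congr rfl (g := fun _ => (1 : ℝ≥0∞)), Finset.sum_const, nsmul_eq_mul, mul_one]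
      intro γ hγ
      rw [Set.indicator_of_mem]
      simpa using hγ
    · intro γ hγ
      rw [Set.indicator_of_notMem]
      simpa using hγ
  have hpos : ∀ z (hz : z ∈ UH), 0 < (hfin z hz).toFinset.card := by
    intro z hz
    rw [Finset.card_pos]
    obtain ⟨γ, hγ⟩ := hne z hz
    exact ⟨γ, by simpa using hγ⟩
  have hinv : ∀ γ' : CongruenceSubgroup.Gamma0 N, ∀ z ∈ UH, n (mob γ'.1 z) = n z := by
    intro γ' z hz
    simp only [hn]
    rw [← (Equiv.mulRight γ').tsum_eq (fun γ : CongruenceSubgroup.Gamma0 N =>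
      F.indicator (fun _ => (1 : ℝ≥0∞)) (mob γ.1 z))]
    refine tsum_congr fun γ => ?_
    have : mob ((Equiv.mulRight γ') γ).1 z = mob γ.1 (mob γ'.1 z) := by
      rw [← cov_mob_mul _ _ hz]
      rfl
    rw [this]
  refine ⟨fun z => F.indicator (fun _ => (1 : ℝ)) z * (n z).toReal⁻¹, ?_, ?_, ?_, ?_, ?_⟩
  · exact (measurable_const.indicator hFm).mul hnm.ennreal_toReal.inv
  · intro z
    exact mul_nonneg (Set.indicator_nonneg (fun _ _ => zero_le_one) _)
      (inv_nonneg.2 ENNReal.toReal_nonneg)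
  · intro z
    by_cases hz : z ∈ F
    · simp only [Set.indicator_of_mem hz, one_mul]
      rw [hncard z (hFU hz), ENNReal.toReal_natCast]
      have h1 := hpos z (hFU hz)
      have h2 : (1 : ℝ) ≤ ((hfin z (hFU hz)).toFinset.card : ℝ) := by exact_mod_cast h1
      exact inv_le_one_of_one_le₀ h2
    · simp only [Set.indicator_of_notMem hz, zero_mul]
      exact zero_le_one
  · intro z hz
    have h1 : (fun γ : CongruenceSubgroup.Gamma0 N =>
        F.indicator (fun _ => (1 : ℝ)) (mob γ.1 z) * (n (mob γ.1 z)).toReal⁻¹) =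
        fun γ : CongruenceSubgroup.Gamma0 N =>
        F.indicator (fun _ => (1 : ℝ)) (mob γ.1 z) * (n z).toReal⁻¹ := by
      funext γ
      rw [hinv γ z hz]
    have h2 : HasSum (fun γ : CongruenceSubgroup.Gamma0 N =>
        F.indicator (fun _ => (1 : ℝ)) (mob γ.1 z)) ((hfin z hz).toFinset.card : ℝ) := by
      have h3 : ∑ γ ∈ (hfin z hz).toFinset, F.indicator (fun _ => (1 : ℝ)) (mob γ.1 z)
          = ((hfin z hz).toFinset.card : ℝ) := by
        rw [Finset.sum_congr rfl (g := fun _ => (1 : ℝ)), Finset.sum_const, nsmul_eq_mul, mul_one]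
        intro γ hγ
        rw [Set.indicator_of_mem]
        simpa using hγ
      rw [← h3]
      refine hasSum_sum_of_ne_finset_zero fun γ hγ => ?_
      rw [Set.indicator_of_notMem]
      simpa using hγ
    have h3 := h2.mul_right (n z).toReal⁻¹
    rw [← h1] at h3
    have h4 : ((hfin z hz).toFinset.card : ℝ) * (n z).toReal⁻¹ = 1 := by
      rw [hncard z hz, ENNReal.toReal_natCast, mul_inv_cancel₀]
      have := hpos z hz
      positivity
    rw [h4] at h3
    exact h3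
  · refine ⟨G, fun z hz => ?_⟩
    have hzF : z ∈ F := by
      by_contra h
      apply hz
      simp [Set.indicator_of_notMem h]
    rw [hF, Set.mem_iUnion₂] at hzF
    obtain ⟨g, hg, w, hw, rfl⟩ := hzF
    exact ⟨g, hg, w, hw.1, hw.2.1, hw.2.2, rfl⟩

end Pool.Agent.Helper96.MP
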